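import Pool.Agent.H422R2.QA.QAStubs
import Pool.Agent.H320R2.PDWords

/-! Task S1 (STEPAVG): one step of the iteration. -/

set_option autoImplicit false

namespace Pool.Agent.H422R2.QA

open Finset Pool.Agent.H320R2.PD
open Stubs

namespace SA

/-! ### averages -/

open scoped Classical in
/-- the classes prime to `q` -/
noncomputable def Un (q n : ℕ) : Finset ℕ :=
  (Finset.range (q ^ (n + 1))).filter (fun x : ℕ => ¬ (q : ℤ) ∣ (x : ℤ))

theorem avU_eq (q n : ℕ) (f : ℤ → ℝ) :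
    avU q n f = (∑ x ∈ Un q n, f (x : ℤ)) / ((q - 1) * (q : ℝ) ^ n) := rfl

theorem mem_Un {q n x : ℕ} : x ∈ Un q n ↔ x < q ^ (n + 1) ∧ ¬ (q : ℤ) ∣ (x : ℤ) := by
  simp [Un]

theorem card_Un {q : ℕ} (hq : q.Prime) (n : ℕ) : ((Un q n).card : ℝ) = (q - 1) * (q : ℝ) ^ n := by
  classical
  have h1 : Un q n = (Finset.range (q ^ (n + 1))).filter (fun x => (q ^ (n + 1)).Coprime x) := by
    ext x
    rw [mem_Un, Finset.mem_filter, Finset.mem_range]
    refine and_congr_right fun _ => ?_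
    rw [Nat.coprime_pow_left_iff (Nat.succ_pos n), Nat.Prime.coprime_iff_not_dvd hq,
      Int.natCast_dvd_natCast]
  rw [h1, ← Nat.totient_eq_card_coprime, Nat.totient_prime_pow_succ hq]
  push_cast [Nat.cast_sub hq.one_le]
  ring

theorem c_pos {q : ℕ} (hq : q.Prime) (n : ℕ) : (0 : ℝ) < (q - 1) * (q : ℝ) ^ n := by
  have h2 : (2 : ℝ) ≤ q := by exact_mod_cast hq.two_le
  have : (0 : ℝ) < q := by linarith
  have h3 : (0 : ℝ) < (q : ℝ) - 1 := by linarith
  positivity

/-! ### words -/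

theorem length_of_mem {A n : ℕ} {w : List ℕ} (h : w ∈ FW A n) : w.length = n := (mem_FW.1 h).1

theorem ne_nil_of_mem {A n : ℕ} (hn : 1 ≤ n) {w : List ℕ} (h : w ∈ FW A n) : w ≠ [] := by
  rintro rfl
  have := length_of_mem h
  simp at this
  omega

theorem append_mem {A m n : ℕ} {u v : List ℕ} (hu : u ∈ FW A m) (hv : v ∈ FW A n) :
    u ++ v ∈ FW A (m + n) := by
  rw [mem_FW] at *
  refine ⟨by rw [List.length_append, hu.1, hv.1], ?_⟩
  intro e he
  rw [List.mem_append] at he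
  rcases he with he | he
  · exact hu.2 e he
  · exact hv.2 e he

theorem cc_mem {A K : ℕ} {τ : Fin K → List ℕ} {l : Fin K → ℕ} (h : ∀ g, τ g ∈ FW A (l g)) :
    cc K τ ∈ FW A (∑ g, l g) := by
  induction K with
  | zero => simp [cc, FW]
  | succ K ih =>
    rw [Fin.sum_univ_castSucc, add_comm]
    exact append_mem (h _) (ih fun i => h _)

theorem sum_wtu {E : ℕ} (u : ℕ → ℝ) (J : ℕ) :
    ∑ w ∈ FW E J, wtu u w = (∑ e ∈ Icc 1 E, u e) ^ J := by
  induction J with
  | zero => simp [FW, wtu]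
  | succ J ih =>
    rw [sum_FW_succ, pow_succ', ← ih, Finset.sum_mul]
    refine Finset.sum_congr rfl fun e _ => ?_
    rw [Finset.mul_sum]
    refine Finset.sum_congr rfl fun w _ => ?_
    simp [wtu]

/-- every start has live words of every length -/
theorem exists_live {q : ℕ} (hq : q.Prime) (hq2 : q ≠ 2) (hP : Prim q) {E : ℕ}
    (hE : q * (q - 1) ≤ E) (J : ℕ) {y : ℤ} (hy : ¬ (q : ℤ) ∣ y) : ∃ v ∈ FW E J, Lv q v y := by
  induction J with
  | zero =>
    refine ⟨[], by simp [FW], ?_, ?_⟩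
    · simp [Vd]
    · simpa [Ep, Wq] using hy
  | succ J ih =>
    obtain ⟨v, hv, hl⟩ := ih
    have h1 : ¬ (q : ℤ) ∣ 1 := by
      intro h
      have := Int.eq_one_of_dvd_one (by positivity) h
      have h2 := hq.one_lt
      omega
    obtain ⟨e, he, hle, -⟩ := Prim.exists_letter hP hq hq2 (x := Ep q v y) (d := 1) hl.2 h1
    refine ⟨v ++ [e], append_mem hv ?_, ?_⟩
    · rw [mem_FW]
      rw [Finset.mem_Icc] at he
      refine ⟨rfl, ?_⟩
      intro e' he'
      rw [List.mem_singleton] at he'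
      subst he'
      exact ⟨he.1, he.2.trans hE⟩
    · rw [Lv_append hq hq2 (List.cons_ne_nil _ _)]
      exact ⟨hl, hle⟩

/-! ### pairs -/

open scoped Classical in
/-- pairs (past word, new word) which are live at `x` -/
noncomputable def PP (q E : ℕ) {K : ℕ} (T : Fin K → Finset (List ℕ)) (J : ℕ) (x : ℤ) :
    Finset ((Fin K → List ℕ) × List ℕ) :=
  ((Fintype.piFinset T) ×ˢ FW E J).filter (fun p => Lv q (cc K p.1 ++ p.2) x)

/-- total size of a pair -/
def sz {K : ℕ} (p : (Fin K → List ℕ) × List ℕ) : ℕ := (cc K p.1 ++ p.2).sum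

open scoped Classical in
/-- pigeonhole over the total size -/
theorem popular {q E K J L : ℕ} {T : Fin K → Finset (List ℕ)} {l : Fin K → ℕ}
    (hT : ∀ g, T g ⊆ FW E (l g)) (hL : ∑ g, l g = L) (x : ℤ)
    (P : Finset ((Fin K → List ℕ) × List ℕ)) (hP : P ⊆ PP q E T J x) (hne : P.Nonempty) :
    ∃ p ∈ P, 1 ≤ Nq q E (L + J) (sz p) x ∧
      (P.card : ℝ) / ((L + J) * E + 1 : ℕ) ≤ Nq q E (L + J) (sz p) x := by
  have hmemP : ∀ p ∈ P, (∀ g, p.1 g ∈ T g) ∧ p.2 ∈ FW E J ∧ Lv q (cc K p.1 ++ p.2) x := by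
    intro p hp
    have := hP hp
    unfold PP at this
    rw [Finset.mem_filter, Finset.mem_product, Fintype.mem_piFinset] at this
    exact ⟨this.1.1, this.1.2, this.2⟩
  have hmem : ∀ p ∈ P, cc K p.1 ++ p.2 ∈ FW E (L + J) := by
    intro p hp
    obtain ⟨h1, h2, _⟩ := hmemP p hp
    rw [← hL]
    exact append_mem (cc_mem fun g => hT g (h1 g)) h2
  have hszle : ∀ p ∈ P, sz p ∈ range ((L + J) * E + 1) := by
    intro p hp
    rw [Finset.mem_range]
    exact Nat.lt_succ_of_le (sum_le_of_mem (hmem p hp)).2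
  have hsum : ∑ s ∈ range ((L + J) * E + 1), ((P.filter (fun p => sz p = s)).card : ℝ) = P.card := by
    rw [← Nat.cast_sum, ← Finset.card_eq_sum_card_fiberwise]
    exact hszle
  have hle : ∑ s ∈ range ((L + J) * E + 1), (P.card : ℝ) / ((L + J) * E + 1 : ℕ) ≤
      ∑ s ∈ range ((L + J) * E + 1), ((P.filter (fun p => sz p = s)).card : ℝ) := by
    rw [hsum, Finset.sum_const, Finset.card_range, nsmul_eq_mul, mul_div_cancel₀]
    positivity
  obtain ⟨s, -, hs⟩ := Finset.exists_le_of_sum_le (by simp) hle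
  have hpos : (0 : ℝ) < (P.card : ℝ) / ((L + J) * E + 1 : ℕ) := by
    have : 0 < P.card := hne.card_pos
    positivity
  have hne' : (P.filter (fun p => sz p = s)).Nonempty := by
    rw [← Finset.card_pos]
    have := lt_of_lt_of_le hpos hs
    exact_mod_cast this
  obtain ⟨p, hp⟩ := hne'
  have hp' := Finset.mem_filter.1 hp
  have hcard : (P.filter (fun p => sz p = s)).card ≤ Nq q E (L + J) (sz p) x := by
    unfold Nq
    apply Finset.card_le_card_of_injOn (fun p => cc K p.1 ++ p.2)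
    · intro r hr
      have hr' := Finset.mem_filter.1 hr
      rw [Finset.mem_coe, Finset.mem_filter]
      refine ⟨hmem r hr'.1, ?_, (hmemP r hr'.1).2.2⟩
      rw [hp'.2]
      exact hr'.2
    · intro r hr r' hr' h
      have hr1 := (Finset.mem_filter.1 hr).1
      have hr2 := (Finset.mem_filter.1 hr').1
      obtain ⟨a1, a2, _⟩ := hmemP r hr1
      obtain ⟨b1, b2, _⟩ := hmemP r' hr2
      have hlen : (cc K r.1).length = (cc K r'.1).length := by
        rw [length_of_mem (cc_mem fun g => hT g (a1 g)), length_of_mem (cc_mem fun g => hT g (b1 g))]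
      obtain ⟨h1, h2⟩ := List.append_inj h hlen
      have h3 := cc_inj (fun g => by
        rw [length_of_mem (hT g (a1 g)), length_of_mem (hT g (b1 g))]) h1
      exact Prod.ext h3 h2
  refine ⟨p, hp'.1, ?_, ?_⟩
  · have h1 : 0 < (P.filter (fun p => sz p = s)).card := Finset.card_pos.2 ⟨p, hp⟩
    omega
  · refine hs.trans ?_
    exact_mod_cast hcard

/-! ### weights -/

theorem wt_le {q E J : ℕ} (hq : q.Prime) {z : ℝ} (hz : 0 < z) (hE : 1 ≤ E) {ε₂ : ℝ}
    {v : List ℕ} (hv : v ∈ FW E J) (h : |(v.sum : ℝ) - az z E * J| ≤ ε₂ * J) :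
    (q : ℝ) ^ J * wtu (uz z E) v ≤ Real.exp (-((Gz q z E - |Real.log z| * ε₂) * J)) := by
  have hA := Az_pos hz hE
  have hq0 : (0 : ℝ) < q := by exact_mod_cast hq.pos
  rw [wtu_uz, length_of_mem hv]
  have h1 : (q : ℝ) ^ J * (z ^ v.sum / Az z E ^ J) =
      Real.exp (J * Real.log q + v.sum * Real.log z - J * Real.log (Az z E)) := by
    rw [Real.exp_sub, Real.exp_add, Real.exp_nat_mul, Real.exp_nat_mul, Real.exp_nat_mul,
      Real.exp_log hq0, Real.exp_log hz, Real.exp_log hA]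
    ring
  rw [h1, Real.exp_le_exp]
  unfold Gz
  have h2 : ((v.sum : ℝ) - az z E * J) * Real.log z ≤ ε₂ * J * |Real.log z| := by
    refine (le_abs_self _).trans ?_
    rw [abs_mul]
    exact mul_le_mul_of_nonneg_right h (abs_nonneg _)
  nlinarith

/-- total weight of the live pairs -/
noncomputable def WW (q E : ℕ) (u : ℕ → ℝ) {K : ℕ} (T : Fin K → Finset (List ℕ)) (J : ℕ) (x : ℤ) :
    ℝ := ∑ p ∈ PP q E T J x, (q : ℝ) ^ J * wtu u p.2

/-- weight of the live pairs with atypical size -/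
noncomputable def DD (q E : ℕ) (z ε₂ : ℝ) {K : ℕ} (T : Fin K → Finset (List ℕ)) (J : ℕ) (x : ℤ) :
    ℝ := ∑ p ∈ (PP q E T J x).filter (fun p => ε₂ * J < |(p.2.sum : ℝ) - az z E * J|),
      (q : ℝ) ^ J * wtu (uz z E) p.2

theorem wtu_nonneg {u : ℕ → ℝ} (hu : ∀ e, 0 ≤ u e) (w : List ℕ) : 0 ≤ wtu u w := by
  unfold wtu
  apply List.prod_nonneg
  intro a ha
  rw [List.mem_map] at ha
  obtain ⟨e, -, rfl⟩ := ha
  exact hu e

theorem uz_nonneg {z : ℝ} (hz : 0 < z) {E : ℕ} (hE : 1 ≤ E) (e : ℕ) : 0 ≤ uz z E e := by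
  have := Az_pos hz hE
  unfold uz
  positivity

theorem HH_le {q E J : ℕ} (hq : q.Prime) (hq2 : q ≠ 2) (u : ℕ → ℝ)
    (hu : ∀ e, 0 ≤ u e) (hsum : ∑ e ∈ Icc 1 E, u e = 1) (hJ : 1 ≤ J) {K : ℕ}
    (T : Fin K → Finset (List ℕ)) (x : ℤ) :
    HH q T (FF q E u) J x ≤ q * WW q E u T J x := by
  classical
  unfold HH WW PP
  rw [Finset.sum_filter, Finset.sum_product, Finset.mul_sum]
  refine Finset.sum_le_sum fun τ _ => ?_
  have hq0 : (0 : ℝ) ≤ q := by positivity
  split_ifs with h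
  · refine (FF_succ_le hq hq2 u hu hsum J _).trans (le_of_eq ?_)
    congr 1
    refine Finset.sum_congr rfl fun v hv => ?_
    have h1 := Lv_append (u := cc K τ) hq hq2 (ne_nil_of_mem hJ hv) x
    simp only [h1, h, true_and]
  · apply mul_nonneg hq0
    refine Finset.sum_nonneg fun v _ => ?_
    have := wtu_nonneg hu v
    split_ifs <;> positivity

open scoped Classical in
/-- the number of live pairs -/
theorem card_PP {q E J : ℕ} (hq : q.Prime) (hq2 : q ≠ 2) (hP : Prim q)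
    (hE : q * (q - 1) ≤ E) (hJ : 1 ≤ J) {K : ℕ} (T : Fin K → Finset (List ℕ)) (x : ℤ) :
    ((Fintype.piFinset T).filter (fun τ => Lv q (cc K τ) x)).card ≤ (PP q E T J x).card := by
  have h1 : ∀ τ : Fin K → List ℕ, ∃ v : List ℕ, Lv q (cc K τ) x →
      v ∈ FW E J ∧ Lv q v (Ep q (cc K τ) x) := by
    intro τ
    by_cases h : Lv q (cc K τ) x
    · obtain ⟨v, hv, hl⟩ := exists_live hq hq2 hP hE J h.2
      exact ⟨v, fun _ => ⟨hv, hl⟩⟩
    · exact ⟨[], fun h' => absurd h' h⟩
  choose V hV using h1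
  apply Finset.card_le_card_of_injOn (fun τ => (τ, V τ))
  · intro τ hτ
    rw [Finset.mem_coe, Finset.mem_filter] at hτ
    unfold PP
    rw [Finset.mem_coe, Finset.mem_filter, Finset.mem_product]
    obtain ⟨h2, h3⟩ := hV τ hτ.2
    refine ⟨⟨hτ.1, h2⟩, ?_⟩
    rw [Lv_append hq hq2 (ne_nil_of_mem hJ h2)]
    exact ⟨hτ.2, h3⟩
  · intro τ _ τ' _ h
    exact (Prod.ext_iff.1 h).1

open scoped Classical in
/-- the pointwise estimate -/
theorem pointwise {q E J K L : ℕ} (hq : q.Prime) (hq2 : q ≠ 2) (hP : Prim q)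
    (hE : q * (q - 1) ≤ E) (hJ : 1 ≤ J) {z : ℝ} (hz : 0 < z) (ε₂ : ℝ)
    {T : Fin K → Finset (List ℕ)} {l : Fin K → ℕ}
    (hT : ∀ g, T g ⊆ FW E (l g)) (hL : ∑ g, l g = L) {x : ℤ} {Mt : ℝ} (hMt : 0 < Mt)
    (hlive : Mt ≤ (((Fintype.piFinset T).filter (fun τ => Lv q (cc K τ) x)).card : ℝ))
    (hW : 0 < WW q E (uz z E) T J x) :
    ∃ s : ℕ, 1 ≤ Nq q E (L + J) s x ∧
      Real.log Mt - Real.log ((L + J) * E + 1 : ℕ) - Real.log 2 +
          (Real.log (WW q E (uz z E) T J x / Mt) - WW q E (uz z E) T J x / Mt) +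
          (Gz q z E - |Real.log z| * ε₂) * J -
          (if WW q E (uz z E) T J x / 2 < DD q E z ε₂ T J x then
            |Gz q z E - |Real.log z| * ε₂| * J else 0)
        ≤ Real.log (Nq q E (L + J) s x) ∧
      ∃ τ ∈ Fintype.piFinset T, ∃ v ∈ FW E J, s = (cc K τ).sum + v.sum ∧
        (¬ (WW q E (uz z E) T J x / 2 < DD q E z ε₂ T J x) →
          |(v.sum : ℝ) - az z E * J| ≤ ε₂ * J) := by
  set W := WW q E (uz z E) T J x with hWdef
  set X := Gz q z E - |Real.log z| * ε₂ with hX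
  have hE1 : 1 ≤ E := by
    have h2 := hq.two_le
    have : 1 * 1 ≤ q * (q - 1) := Nat.mul_le_mul (by omega) (by omega)
    omega
  have hn : (0 : ℝ) < ((L + J) * E + 1 : ℕ) := by positivity
  have hlogw : Real.log (W / Mt) ≤ W / Mt := by
    have := Real.log_le_sub_one_of_pos (div_pos hW hMt)
    linarith
  by_cases hB : W / 2 < DD q E z ε₂ T J x
  · -- atypical case
    have hne : (PP q E T J x).Nonempty := by
      rw [← Finset.card_pos]
      have h1 := card_PP hq hq2 hP hE hJ T x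
      have h2 : (0 : ℝ) < (((Fintype.piFinset T).filter (fun τ => Lv q (cc K τ) x)).card : ℝ) :=
        lt_of_lt_of_le hMt hlive
      have h3 : 0 < ((Fintype.piFinset T).filter (fun τ => Lv q (cc K τ) x)).card := by
        exact_mod_cast h2
      omega
    obtain ⟨p, hp, h1, h2⟩ := popular hT hL x _ (Finset.Subset.refl _) hne
    refine ⟨sz p, h1, ?_, ?_⟩
    · rw [if_pos hB]
      have h3 : Mt / ((L + J) * E + 1 : ℕ) ≤ Nq q E (L + J) (sz p) x := by
        refine le_trans ?_ h2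
        apply div_le_div_of_nonneg_right _ hn.le
        refine hlive.trans ?_
        exact_mod_cast card_PP hq hq2 hP hE hJ T x
      have h4 : Real.log Mt - Real.log ((L + J) * E + 1 : ℕ) ≤
          Real.log (Nq q E (L + J) (sz p) x) := by
        rw [← Real.log_div hMt.ne' hn.ne']
        exact Real.log_le_log (div_pos hMt hn) h3
      have h5 : X * J ≤ |X| * J := mul_le_mul_of_nonneg_right (le_abs_self X) (by positivity)
      have h6 : 0 < Real.log 2 := Real.log_pos (by norm_num)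
      linarith
    · unfold PP at hp
      rw [Finset.mem_filter, Finset.mem_product] at hp
      refine ⟨p.1, hp.1.1, p.2, hp.1.2, ?_, fun h => absurd hB h⟩
      simp [sz]
  · -- typical case
    have hDle : DD q E z ε₂ T J x ≤ W / 2 := not_lt.1 hB
    set Pg := (PP q E T J x).filter (fun p => ¬ (ε₂ * J < |(p.2.sum : ℝ) - az z E * J|)) with hPg
    have hsplit : DD q E z ε₂ T J x + ∑ p ∈ Pg, (q : ℝ) ^ J * wtu (uz z E) p.2 = W := by
      rw [hWdef]
      unfold DD WW
      rw [hPg, Finset.sum_filter_add_sum_filter_not]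
    have hPle : ∑ p ∈ Pg, (q : ℝ) ^ J * wtu (uz z E) p.2 ≤ Pg.card * Real.exp (-(X * J)) := by
      rw [← nsmul_eq_mul]
      apply Finset.sum_le_card_nsmul
      intro p hp
      rw [hPg, Finset.mem_filter] at hp
      have hp1 := hp.1
      unfold PP at hp1
      rw [Finset.mem_filter, Finset.mem_product] at hp1
      exact wt_le hq hz hE1 hp1.1.2 (not_lt.1 hp.2)
    have hcard : W / 2 * Real.exp (X * J) ≤ Pg.card := by
      have h1 : W / 2 ≤ Pg.card * Real.exp (-(X * J)) := by linarith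
      calc W / 2 * Real.exp (X * J) ≤ Pg.card * Real.exp (-(X * J)) * Real.exp (X * J) :=
            mul_le_mul_of_nonneg_right h1 (Real.exp_nonneg _)
        _ = Pg.card := by rw [mul_assoc, ← Real.exp_add]; simp
    have hne : Pg.Nonempty := by
      rw [← Finset.card_pos]
      have h1 : (0 : ℝ) < W / 2 * Real.exp (X * J) := by positivity
      have h2 : (0 : ℝ) < Pg.card := lt_of_lt_of_le h1 hcard
      exact_mod_cast h2
    obtain ⟨p, hp, h1, h2⟩ := popular hT hL x Pg (Finset.filter_subset _ _) hne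
    refine ⟨sz p, h1, ?_, ?_⟩
    · rw [if_neg hB]
      have h3 : W / 2 * Real.exp (X * J) / ((L + J) * E + 1 : ℕ) ≤ Nq q E (L + J) (sz p) x := by
        refine le_trans ?_ h2
        exact div_le_div_of_nonneg_right hcard hn.le
      have h4 : Real.log (W / 2 * Real.exp (X * J) / ((L + J) * E + 1 : ℕ)) ≤
          Real.log (Nq q E (L + J) (sz p) x) := by
        exact Real.log_le_log (by positivity) h3
      rw [Real.log_div (by positivity) hn.ne', Real.log_mul (by positivity) (by positivity),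
        Real.log_div hW.ne' (by norm_num), Real.log_exp] at h4
      have h5 : Real.log (W / Mt) = Real.log W - Real.log Mt := Real.log_div hW.ne' hMt.ne'
      have h6 : 0 < W / Mt := div_pos hW hMt
      linarith
    · rw [hPg, Finset.mem_filter] at hp
      have hp1 := hp.1
      unfold PP at hp1
      rw [Finset.mem_filter, Finset.mem_product] at hp1
      refine ⟨p.1, hp1.1.1, p.2, hp1.1.2, ?_, fun _ => not_lt.1 hp.2⟩
      simp [sz]


/-! ### average of the weights -/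

theorem avU_mono {q : ℕ} (hq : q.Prime) {n : ℕ} {f g : ℤ → ℝ}
    (h : ∀ x : ℤ, ¬ (q : ℤ) ∣ x → f x ≤ g x) : avU q n f ≤ avU q n g := by
  rw [avU_eq, avU_eq]
  refine div_le_div_of_nonneg_right (Finset.sum_le_sum fun x hx => ?_) (c_pos hq n).le
  exact h x (mem_Un.1 hx).2

theorem avU_add (q n : ℕ) (f g : ℤ → ℝ) : avU q n (fun x => f x + g x) = avU q n f + avU q n g := by
  rw [avU_eq, avU_eq, avU_eq, Finset.sum_add_distrib, add_div]

theorem avU_sub (q n : ℕ) (f g : ℤ → ℝ) : avU q n (fun x => f x - g x) = avU q n f - avU q n g := by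
  rw [avU_eq, avU_eq, avU_eq, Finset.sum_sub_distrib, sub_div]

theorem avU_mul (q n : ℕ) (c : ℝ) (f : ℤ → ℝ) : avU q n (fun x => c * f x) = c * avU q n f := by
  rw [avU_eq, avU_eq, ← Finset.mul_sum, mul_div_assoc]

theorem avU_const {q : ℕ} (hq : q.Prime) (n : ℕ) (c : ℝ) : avU q n (fun _ => c) = c := by
  rw [avU_eq, Finset.sum_const, nsmul_eq_mul, card_Un hq]
  field_simp [(c_pos hq n).ne']
  have := c_pos hq n
  rw [mul_comm]
  exact mul_div_cancel_right₀ _ this.ne'

theorem avU_abs_sub {q : ℕ} (hq : q.Prime) {n : ℕ} {f : ℤ → ℝ} (c : ℝ) :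
    |avU q n f - c| ≤ avU q n (fun x => |f x - c|) := by
  have h1 : avU q n f - c = avU q n (fun x => f x - c) := by
    rw [avU_sub, avU_const hq]
  rw [h1, avU_eq, avU_eq, abs_div, abs_of_pos (c_pos hq n)]
  exact div_le_div_of_nonneg_right (Finset.abs_sum_le_sum_abs _ _) (c_pos hq n).le

open scoped Classical in
theorem sum_live {q n : ℕ} (hq : q.Prime) (hq2 : q ≠ 2) (hn : 1 ≤ n) {w : List ℕ}
    (hw : w.length = n) (c : ℝ) :
    ∑ x ∈ Un q n, (if Lv q w (x : ℤ) then c else 0) = (q - 1) * c := by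
  rw [← Finset.sum_filter, Finset.sum_const, nsmul_eq_mul]
  have h1 : (Un q n).filter (fun x : ℕ => Lv q w (x : ℤ)) =
      (range (q ^ (w.length + 1))).filter (fun x : ℕ => Lv q w (x : ℤ)) := by
    ext x
    rw [Finset.mem_filter, Finset.mem_filter, mem_Un, Finset.mem_range, hw]
    constructor
    · rintro ⟨⟨h, -⟩, h'⟩
      exact ⟨h, h'⟩
    · rintro ⟨h, h'⟩
      refine ⟨⟨h, ?_⟩, h'⟩
      apply Vd_nonempty hq (w := w) ?_ h'.1
      rintro rfl
      simp at hw
      omega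
  rw [h1, live_classes hq hq2 w, Nat.cast_sub hq.one_le]
  simp

open scoped Classical in
theorem av_weight {q E J K L : ℕ} (hq : q.Prime) (hq2 : q ≠ 2) (hJ : 1 ≤ J) (u : ℕ → ℝ)
    {T : Fin K → Finset (List ℕ)} {l M : Fin K → ℕ} (hl : ∀ g, 1 ≤ l g)
    (hT : ∀ g, Bal q E (l g) (T g) (M g)) (hL : ∑ g, l g = L) (B : List ℕ → Prop) :
    avU q (L + J) (fun x => ∑ p ∈ (PP q E T J x).filter (fun p => B p.2), (q : ℝ) ^ J * wtu u p.2)
      = ((q : ℝ) - 1) ^ K * (∏ g, (M g : ℝ)) * ∑ v ∈ (FW E J).filter B, wtu u v := by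
  rw [avU_eq]
  have h1 : ∀ x : ℕ, ∑ p ∈ (PP q E T J (x : ℤ)).filter (fun p => B p.2), (q : ℝ) ^ J * wtu u p.2 =
      ∑ p ∈ (Fintype.piFinset T) ×ˢ ((FW E J).filter B),
        if Lv q (cc K p.1 ++ p.2) (x : ℤ) then (q : ℝ) ^ J * wtu u p.2 else 0 := by
    intro x
    rw [← Finset.sum_filter]
    apply Finset.sum_congr _ fun _ _ => rfl
    ext p
    unfold PP
    simp only [Finset.mem_filter, Finset.mem_product]
    tauto
  simp only [h1]
  rw [Finset.sum_comm]
  have h2 : ∀ p ∈ (Fintype.piFinset T) ×ˢ ((FW E J).filter B),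
      ∑ x ∈ Un q (L + J), (if Lv q (cc K p.1 ++ p.2) (x : ℤ) then (q : ℝ) ^ J * wtu u p.2 else 0) =
        (q - 1) * ((q : ℝ) ^ J * wtu u p.2) := by
    intro p hp
    rw [Finset.mem_product, Fintype.mem_piFinset, Finset.mem_filter] at hp
    apply sum_live hq hq2 (by omega)
    have h3 : cc K p.1 ++ p.2 ∈ FW E (L + J) := by
      rw [← hL]
      exact append_mem (cc_mem fun g => (hT g).sub (hp.1 g)) hp.2.1
    exact length_of_mem h3
  rw [Finset.sum_congr rfl h2, Finset.sum_product]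
  simp only
  rw [Finset.sum_const, Fintype.card_piFinset, nsmul_eq_mul, ← Finset.mul_sum, ← Finset.mul_sum]
  have h4 : ((∏ g, (T g).card : ℕ) : ℝ) = ((q : ℝ) - 1) ^ K * (q : ℝ) ^ L * ∏ g, (M g : ℝ) := by
    rw [Nat.cast_prod]
    have h5 : ∀ g, ((T g).card : ℝ) = ((q : ℝ) - 1) * (q : ℝ) ^ (l g) * (M g : ℝ) := by
      intro g
      rw [Bal.card hq hq2 (hl g) (hT g)]
      push_cast [Nat.cast_sub hq.one_le]
      ring
    simp only [h5]
    rw [Finset.prod_mul_distrib, Finset.prod_mul_distrib, Finset.prod_const, Finset.prod_pow_eq_pow_sum,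
      hL]
    simp
  rw [h4]
  have hq0 : (0 : ℝ) < q := by exact_mod_cast hq.pos
  have hq1 : (0 : ℝ) < (q : ℝ) - 1 := by
    have : (2 : ℝ) ≤ q := by exact_mod_cast hq.two_le
    linarith
  rw [div_eq_iff (by positivity), pow_add]
  ring


/-! ### the estimate for one `J` -/

/-- elementary inequality: the indicator of the atypical case -/
theorem ind_le {w d c J : ℝ} (hw : 0 < w) (hd : 0 ≤ d) (hc : 0 < c * J) :
    (if w / 2 < d then (1 : ℝ) else 0) ≤
      2 * Real.exp (c * J / 2) * d + 2 / (c * J) * (w - Real.log w) := by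
  have h1 : 0 < w - Real.log w := by
    have := Real.log_le_sub_one_of_pos hw
    linarith
  have h2 : 0 < 2 / (c * J) := by positivity
  have h3 : 0 ≤ 2 * Real.exp (c * J / 2) * d := by positivity
  have h4 : 0 < 2 / (c * J) * (w - Real.log w) := by positivity
  split_ifs with h
  · by_cases h5 : Real.exp (-(c * J / 2)) ≤ w
    · have h6 : 1 ≤ 2 * Real.exp (c * J / 2) * d := by
        calc (1 : ℝ) = Real.exp (c * J / 2) * Real.exp (-(c * J / 2)) := by
              rw [← Real.exp_add]; simp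
          _ ≤ Real.exp (c * J / 2) * w := mul_le_mul_of_nonneg_left h5 (Real.exp_nonneg _)
          _ ≤ Real.exp (c * J / 2) * (2 * d) :=
              mul_le_mul_of_nonneg_left (by linarith) (Real.exp_nonneg _)
          _ = 2 * Real.exp (c * J / 2) * d := by ring
      linarith
    · have h6 : Real.log w < -(c * J / 2) := by
        rw [Real.log_lt_iff_lt_exp hw]
        exact not_le.1 h5
      have h7 : 1 ≤ 2 / (c * J) * (w - Real.log w) := by
        rw [div_mul_eq_mul_div, le_div_iff₀ hc]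
        linarith
      linarith
  · linarith

open scoped Classical in
theorem core {q E J K L : ℕ} (hq : q.Prime) (hq2 : q ≠ 2) (hP : Prim q)
    (hE : q * (q - 1) ≤ E) (hJ : 1 ≤ J) {z : ℝ} (hz : 0 < z) {ε₂ c η a B₁ : ℝ} (hε₂ : 0 ≤ ε₂)
    (hc : 0 < c)
    (hdev : ∑ w ∈ (FW E J).filter (fun w => ε₂ * J < |(w.sum : ℝ) - az z E * J|), wtu (uz z E) w
        ≤ 2 * Real.exp (-(c * J)))
    {T : Fin K → Finset (List ℕ)} {l M : Fin K → ℕ} (hl : ∀ g, 1 ≤ l g) (hM : ∀ g, 1 ≤ M g)
    (hT : ∀ g, Bal q E (l g) (T g) (M g)) (hL : ∑ g, l g = L)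
    (hpos : ∀ x : ℤ, ¬ (q : ℤ) ∣ x → 0 < HH q T (FF q E (uz z E)) J x)
    (hav : avU q (L + J) (fun x => -Real.log (HH q T (FF q E (uz z E)) J x / ∏ g, (M g : ℝ))) ≤
      η * J)
    (hsz : ∀ τ ∈ Fintype.piFinset T, |((cc K τ).sum : ℝ) - a * L| ≤ B₁) :
    ∃ S : ℤ → ℕ,
        (∀ x y : ℤ, ¬ (q : ℤ) ∣ x → S (x + (q : ℤ) ^ (L + J + 1) * y) = S x) ∧
        (∀ x : ℤ, ¬ (q : ℤ) ∣ x → 1 ≤ Nq q E (L + J) (S x) x) ∧
        Real.log (∏ g, (M g : ℝ)) - Real.log ((L + J) * E + 1 : ℕ) - Real.log 2 - η * J -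
            Real.log q - ((q : ℝ) - 1) ^ K + (Gz q z E - |Real.log z| * ε₂) * J -
            (4 * ((q : ℝ) - 1) ^ K * Real.exp (-(c * J / 2)) +
              2 / (c * J) * (((q : ℝ) - 1) ^ K + η * J + Real.log q)) *
              (|Gz q z E - |Real.log z| * ε₂| * J)
          ≤ avU q (L + J) (fun x => Real.log (Nq q E (L + J) (S x) x)) ∧
        |avU q (L + J) (fun x => (S x : ℝ)) - (a * L + az z E * J)| ≤
          B₁ + ε₂ * J + (4 * ((q : ℝ) - 1) ^ K * Real.exp (-(c * J / 2)) +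
              2 / (c * J) * (((q : ℝ) - 1) ^ K + η * J + Real.log q)) * (E * J) := by
  set Mt : ℝ := ∏ g, (M g : ℝ) with hMt
  have hMtpos : 0 < Mt := Finset.prod_pos fun g _ => by exact_mod_cast hM g
  have hq0 : (0 : ℝ) < q := by exact_mod_cast hq.pos
  have hq1 : (1 : ℝ) ≤ (q : ℝ) - 1 := by
    have : (2 : ℝ) ≤ q := by exact_mod_cast hq.two_le
    linarith
  have hE1 : 1 ≤ E := by
    have h2 := hq.two_le
    have : 1 * 1 ≤ q * (q - 1) := Nat.mul_le_mul (by omega) (by omega)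
    omega
  have hJ0 : (0 : ℝ) < J := by exact_mod_cast hJ
  have hcJ : 0 < c * J := by positivity
  set X := Gz q z E - |Real.log z| * ε₂ with hX
  set W : ℤ → ℝ := WW q E (uz z E) T J with hW
  set D : ℤ → ℝ := DD q E z ε₂ T J with hD
  -- positivity
  have hHW : ∀ x, HH q T (FF q E (uz z E)) J x ≤ q * W x := fun x =>
    HH_le hq hq2 (uz z E) (uz_nonneg hz hE1) (sum_uz hz hE1) hJ T x
  have hWpos : ∀ x : ℤ, ¬ (q : ℤ) ∣ x → 0 < W x := by
    intro x hx
    have h1 := lt_of_lt_of_le (hpos x hx) (hHW x)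
    exact pos_of_mul_pos_right h1 hq0.le
  have hDnn : ∀ x, 0 ≤ D x := by
    intro x
    rw [hD]
    unfold DD
    refine Finset.sum_nonneg fun p _ => ?_
    have := wtu_nonneg (uz_nonneg hz hE1) p.2
    positivity
  -- averages
  have havW : avU q (L + J) (fun x => W x / Mt) = ((q : ℝ) - 1) ^ K := by
    have h1 := av_weight (u := uz z E) hq hq2 hJ hl hT hL (fun _ => True)
    simp only [Finset.filter_true, sum_wtu, sum_uz hz hE1, one_pow, mul_one] at h1
    have h2 : (fun x => W x / Mt) = fun x => Mt⁻¹ *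
        (fun x => ∑ p ∈ PP q E T J x, (q : ℝ) ^ J * wtu (uz z E) p.2) x := by
      funext x
      rw [hW]
      unfold WW
      rw [div_eq_inv_mul]
    rw [h2, avU_mul, h1, ← hMt]
    field_simp
  have havD : avU q (L + J) (fun x => D x / Mt) ≤ ((q : ℝ) - 1) ^ K * (2 * Real.exp (-(c * J))) := by
    have h1 := av_weight (u := uz z E) hq hq2 hJ hl hT hL
      (fun w => ε₂ * J < |(w.sum : ℝ) - az z E * J|)
    have h2 : (fun x => D x / Mt) = fun x => Mt⁻¹ *
        (fun x => ∑ p ∈ (PP q E T J x).filter (fun p => ε₂ * J < |(p.2.sum : ℝ) - az z E * J|),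
          (q : ℝ) ^ J * wtu (uz z E) p.2) x := by
      funext x
      rw [hD]
      unfold DD
      rw [div_eq_inv_mul]
    rw [h2, avU_mul, h1, ← hMt]
    calc Mt⁻¹ * (((q : ℝ) - 1) ^ K * Mt *
          ∑ v ∈ (FW E J).filter (fun w => ε₂ * J < |(w.sum : ℝ) - az z E * J|), wtu (uz z E) v)
        = ((q : ℝ) - 1) ^ K *
          ∑ v ∈ (FW E J).filter (fun w => ε₂ * J < |(w.sum : ℝ) - az z E * J|), wtu (uz z E) v := by
          field_simp
      _ ≤ _ := mul_le_mul_of_nonneg_left hdev (by positivity)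
  have havlog : -(η * J) - Real.log q ≤ avU q (L + J) (fun x => Real.log (W x / Mt)) := by
    have h1 : avU q (L + J) (fun x => -Real.log (W x / Mt)) ≤
        avU q (L + J) (fun x => -Real.log (HH q T (FF q E (uz z E)) J x / Mt) + Real.log q) := by
      refine avU_mono hq fun x hx => ?_
      have h2 : Real.log (HH q T (FF q E (uz z E)) J x / Mt) ≤ Real.log (q * (W x / Mt)) := by
        apply Real.log_le_log (div_pos (hpos x hx) hMtpos)
        rw [← mul_div_assoc]
        exact div_le_div_of_nonneg_right (hHW x) hMtpos.le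
      rw [Real.log_mul hq0.ne' (div_pos (hWpos x hx) hMtpos).ne'] at h2
      linarith
    rw [avU_add, avU_const hq] at h1
    have h3 : avU q (L + J) (fun x => -Real.log (W x / Mt)) =
        -avU q (L + J) (fun x => Real.log (W x / Mt)) := by
      have := avU_mul q (L + J) (-1) (fun x => Real.log (W x / Mt))
      simp only [neg_mul, one_mul] at this
      exact this
    rw [h3] at h1
    linarith
  -- the fraction of atypical starts
  set β := 4 * ((q : ℝ) - 1) ^ K * Real.exp (-(c * J / 2)) +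
              2 / (c * J) * (((q : ℝ) - 1) ^ K + η * J + Real.log q) with hβ
  have havB : avU q (L + J) (fun x => if W x / 2 < D x then (1 : ℝ) else 0) ≤ β := by
    have h1 : avU q (L + J) (fun x => if W x / 2 < D x then (1 : ℝ) else 0) ≤
        avU q (L + J) (fun x => 2 * Real.exp (c * J / 2) * (D x / Mt) +
          2 / (c * J) * (W x / Mt - Real.log (W x / Mt))) := by
      refine avU_mono hq fun x hx => ?_
      have h2 := ind_le (w := W x / Mt) (d := D x / Mt) (c := c) (J := J)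
        (div_pos (hWpos x hx) hMtpos) (div_nonneg (hDnn x) hMtpos.le) hcJ
      refine le_trans (le_of_eq ?_) h2
      have h3 : (W x / 2 < D x) ↔ (W x / Mt / 2 < D x / Mt) := by
        rw [div_right_comm, div_lt_div_iff_of_pos_right hMtpos]
      simp only [h3]
    rw [avU_add, avU_mul, avU_mul, avU_sub, havW] at h1
    refine h1.trans ?_
    rw [hβ]
    apply add_le_add
    · calc 2 * Real.exp (c * J / 2) * avU q (L + J) (fun x => D x / Mt)
          ≤ 2 * Real.exp (c * J / 2) * (((q : ℝ) - 1) ^ K * (2 * Real.exp (-(c * J)))) :=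
            mul_le_mul_of_nonneg_left havD (by positivity)
        _ = 4 * ((q : ℝ) - 1) ^ K * (Real.exp (c * J / 2) * Real.exp (-(c * J))) := by ring
        _ = 4 * ((q : ℝ) - 1) ^ K * Real.exp (-(c * J / 2)) := by
            rw [← Real.exp_add]
            congr 2
            ring
    · apply mul_le_mul_of_nonneg_left _ (by positivity)
      linarith
  -- live words
  have hlive : ∀ x : ℤ, ¬ (q : ℤ) ∣ x →
      Mt ≤ (((Fintype.piFinset T).filter (fun τ => Lv q (cc K τ) x)).card : ℝ) := by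
    intro x hx
    rw [cc_live_card hq hq2 hl hT hx]
    push_cast [Nat.cast_sub hq.one_le]
    rw [← hMt]
    have : (1 : ℝ) ≤ ((q : ℝ) - 1) ^ K := one_le_pow₀ hq1
    nlinarith
  have hex : ∀ x : ℤ, ∃ s : ℕ, ¬ (q : ℤ) ∣ x →
      (1 ≤ Nq q E (L + J) s x ∧
        Real.log Mt - Real.log ((L + J) * E + 1 : ℕ) - Real.log 2 +
          (Real.log (W x / Mt) - W x / Mt) + X * J - (if W x / 2 < D x then |X| * J else 0)
        ≤ Real.log (Nq q E (L + J) s x) ∧
      |(s : ℝ) - (a * L + az z E * J)| ≤ B₁ + ε₂ * J + (if W x / 2 < D x then (1 : ℝ) else 0) *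
        (E * J)) := by
    intro x
    by_cases hx : (q : ℤ) ∣ x
    · exact ⟨0, fun h => absurd hx h⟩
    obtain ⟨s, h1, h2, τ, hτ, v, hv, hs, h3⟩ := pointwise hq hq2 hP hE hJ hz ε₂
      (fun g => (hT g).sub) hL hMtpos (hlive x hx) (hWpos x hx)
    refine ⟨s, fun _ => ⟨h1, h2, ?_⟩⟩
    have h4 : (s : ℝ) - (a * L + az z E * J) =
        (((cc K τ).sum : ℝ) - a * L) + ((v.sum : ℝ) - az z E * J) := by
      rw [hs]
      push_cast
      ring
    rw [h4, add_assoc]
    refine (abs_add_le _ _).trans (add_le_add (hsz τ hτ) ?_)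
    by_cases hB : W x / 2 < D x
    · rw [if_pos hB]
      have h5 : (v.sum : ℝ) ≤ E * J := by
        have := (sum_le_of_mem hv).2
        have h6 : ((v.sum : ℕ) : ℝ) ≤ ((J * E : ℕ) : ℝ) := Nat.cast_le.2 this
        rw [Nat.cast_mul] at h6
        linarith
      have h6 := az_mem hz hE1
      have h7 : 0 ≤ az z E * J := by nlinarith
      have h8 : az z E * J ≤ E * J := mul_le_mul_of_nonneg_right h6.2 hJ0.le
      have h9 : (0 : ℝ) ≤ v.sum := by positivity
      have h10 : 0 ≤ ε₂ * J := by positivity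
      rw [one_mul, abs_le]
      constructor <;> linarith
    · rw [if_neg hB, zero_mul, add_zero]
      exact h3 hB
  choose s hs using hex
  have hm0 : (0 : ℤ) < (q : ℤ) ^ (L + J + 1) := by
    have : (0 : ℤ) < q := by exact_mod_cast hq.pos
    positivity
  refine ⟨fun x => s (x % (q : ℤ) ^ (L + J + 1)), ?_, ?_, ?_, ?_⟩
  · intro x y _
    simp only [Int.add_mul_emod_self_left]
  · intro x hx
    have h1 : x = x % (q : ℤ) ^ (L + J + 1) + (q : ℤ) ^ (L + J + 1) * (x / (q : ℤ) ^ (L + J + 1)) :=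
      (Int.emod_add_mul_ediv x _).symm
    have h2 : ¬ (q : ℤ) ∣ x % (q : ℤ) ^ (L + J + 1) := by
      intro h
      apply hx
      rw [h1]
      apply dvd_add h
      exact Dvd.dvd.mul_right (dvd_pow_self _ (by omega)) _
    have h3 := (hs _ h2).1
    have h4 := Nq_shift hq hq2 E (L + J) (s (x % (q : ℤ) ^ (L + J + 1)))
      (x % (q : ℤ) ^ (L + J + 1)) (x / (q : ℤ) ^ (L + J + 1))
    rw [← h1] at h4
    rw [h4]
    exact h3
  · have h1 : avU q (L + J) (fun x => Real.log (Nq q E (L + J) (s x) x)) =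
        avU q (L + J) (fun x => Real.log (Nq q E (L + J) (s (x % (q : ℤ) ^ (L + J + 1))) x)) := by
      rw [avU_eq, avU_eq]
      congr 1
      refine Finset.sum_congr rfl fun x hx => ?_
      rw [Int.emod_eq_of_lt (by positivity)]
      have := (mem_Un.1 hx).1
      exact_mod_cast this
    rw [← h1]
    have h2 : avU q (L + J) (fun x => (Real.log Mt - Real.log ((L + J) * E + 1 : ℕ) - Real.log 2 +
          X * J) + ((Real.log (W x / Mt) - W x / Mt) -
            (|X| * J) * (if W x / 2 < D x then (1 : ℝ) else 0))) ≤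
        avU q (L + J) (fun x => Real.log (Nq q E (L + J) (s x) x)) := by
      refine avU_mono hq fun x hx => ?_
      refine le_trans (le_of_eq ?_) (hs x hx).2.1
      split_ifs <;> ring
    rw [avU_add, avU_const hq, avU_sub, avU_sub, avU_mul, havW] at h2
    refine le_trans ?_ h2
    have h3 : |X| * J * avU q (L + J) (fun x => if W x / 2 < D x then (1 : ℝ) else 0) ≤
        |X| * J * β := mul_le_mul_of_nonneg_left havB (by positivity)
    linarith
  · have h1 : avU q (L + J) (fun x => (s x : ℝ)) =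
        avU q (L + J) (fun x => (s (x % (q : ℤ) ^ (L + J + 1)) : ℝ)) := by
      rw [avU_eq, avU_eq]
      congr 1
      refine Finset.sum_congr rfl fun x hx => ?_
      rw [Int.emod_eq_of_lt (by positivity)]
      have := (mem_Un.1 hx).1
      exact_mod_cast this
    rw [← h1]
    refine (avU_abs_sub hq _).trans ?_
    have h2 : avU q (L + J) (fun x => |(s x : ℝ) - (a * L + az z E * J)|) ≤
        avU q (L + J) (fun x => (B₁ + ε₂ * J) +
          (E * J) * (if W x / 2 < D x then (1 : ℝ) else 0)) := by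
      refine avU_mono hq fun x hx => ?_
      refine (hs x hx).2.2.trans (le_of_eq ?_)
      ring
    rw [avU_add, avU_const hq, avU_mul] at h2
    refine h2.trans ?_
    have h3 : (E * J) * avU q (L + J) (fun x => if W x / 2 < D x then (1 : ℝ) else 0) ≤
        (E * J) * β := mul_le_mul_of_nonneg_left havB (by positivity)
    linarith


theorem Mix_pos {q b : ℕ} {V : Finset (List ℕ)} {m r : ℕ} {U : Finset (List ℕ)}
    (h : Mix q b V m r U) : 1 ≤ m + r := by
  induction h with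
  | block => simp
  | letter => simp
  | cat _ _ ih1 ih2 => omega

end SA

open SA

theorem step_avg {q : ℕ} (hq : q.Prime) (hq2 : q ≠ 2) (hP : Prim q) {E : ℕ}
    (hE : q * (q - 1) ≤ E) {z : ℝ} (hz : 0 < z) {h₀ ε₁ : ℝ} (hh : 0 < h₀)
    (hε₁ : 0 < ε₁) : ∃ R : ℕ, 1 ≤ R ∧ ∀ g a : ℝ, h₀ ≤ g → 0 ≤ a → a ≤ E → Pr q E g a →
      ∀ n₁ : ℕ, ∃ n : ℕ, n₁ ≤ n ∧ ∃ S : ℤ → ℕ,
        (∀ x y : ℤ, ¬ (q : ℤ) ∣ x → S (x + (q : ℤ) ^ (n + 1) * y) = S x) ∧
        (∀ x : ℤ, ¬ (q : ℤ) ∣ x → 1 ≤ Nq q E n (S x) x) ∧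
        (R * g + (Gz q z E - ε₁)) / (R + 1) * n ≤ avU q n (fun x => Real.log (Nq q E n (S x) x)) ∧
        |avU q n (fun x => (S x : ℝ)) - (R * a + az z E) / (R + 1) * n| ≤ ε₁ / (R + 1) * n := by
  classical
  have hq0 : (0 : ℝ) < q := by exact_mod_cast hq.pos
  have hq1 : (1 : ℝ) ≤ (q : ℝ) - 1 := by
    have : (2 : ℝ) ≤ q := by exact_mod_cast hq.two_le
    linarith
  have hE1 : 1 ≤ E := by
    have h2 := hq.two_le
    have : 1 * 1 ≤ q * (q - 1) := Nat.mul_le_mul (by omega) (by omega)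
    omega
  -- the martingale
  obtain ⟨e₀, -, he₀⟩ := Finset.exists_min_image (Icc 1 E) (uz z E)
    ⟨1, Finset.mem_Icc.2 ⟨le_refl _, hE1⟩⟩
  have hm : 0 < uz z E e₀ := div_pos (pow_pos hz _) (Az_pos hz hE1)
  have hF := FF_good hq hq2 hP hE (uz z E) hm he₀ (sum_uz hz hE1)
  -- constants
  have hlz : 0 ≤ |Real.log z| := abs_nonneg _
  set ε₂ : ℝ := ε₁ / (8 * (1 + |Real.log z|)) with hε₂d
  have hε₂ : 0 < ε₂ := by positivity
  have hε₂1 : ε₂ ≤ ε₁ / 8 := by
    rw [hε₂d]
    apply div_le_div_of_nonneg_left hε₁.le (by norm_num)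
    linarith
  have hε₂2 : |Real.log z| * ε₂ ≤ ε₁ / 8 := by
    rw [hε₂d, mul_div_assoc', div_le_div_iff₀ (by positivity) (by norm_num)]
    nlinarith
  obtain ⟨c, hc, hdev⟩ := size_dev hz hE1 hε₂
  set X0 : ℝ := |Gz q z E| + ε₁ / 8 with hX0
  have hX0' : 0 < X0 + E := by
    have : (0 : ℝ) ≤ E := by positivity
    have := abs_nonneg (Gz q z E)
    linarith
  set η : ℝ := min (ε₁ / 8) (c * ε₁ / (32 * (X0 + E))) with hηd
  have hη : 0 < η := lt_min (by positivity) (by positivity)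
  have hη1 : η ≤ ε₁ / 8 := min_le_left _ _
  have hη2 : 2 * η / c * (X0 + E) ≤ ε₁ / 16 := by
    have h1 : η ≤ c * ε₁ / (32 * (X0 + E)) := min_le_right _ _
    rw [le_div_iff₀ (by positivity)] at h1
    rw [div_mul_eq_mul_div, div_le_iff₀ hc]
    linarith
  obtain ⟨K, hK, ε, hε, J₀, hasm⟩ := assembly (q := q) hq hq2 (c₀ := q * uz z E e₀ ^ 2)
    (c₁ := q * uz z E e₀) (by positivity) (by positivity) hη
  obtain ⟨R, hR, hgr⟩ := groups hq hq2 hP hE (h := h₀ / 2) (by positivity) hK hε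
  refine ⟨R, hR, ?_⟩
  intro g a hg ha haE hPr n₁
  have hR0 : (0 : ℝ) < R := by exact_mod_cast hR
  set ε₃ : ℝ := min (h₀ / 2) (ε₁ / (8 * R)) with hε₃d
  have hε₃ : 0 < ε₃ := lt_min (by positivity) (by positivity)
  have hε₃1 : ε₃ ≤ h₀ / 2 := min_le_left _ _
  have hε₃2 : ε₃ * R ≤ ε₁ / 8 := by
    have h1 : ε₃ ≤ ε₁ / (8 * R) := min_le_right _ _
    rw [le_div_iff₀ (by positivity)] at h1
    linarith
  have hg0 : 0 < g := lt_of_lt_of_le hh hg
  obtain ⟨b₀, hb₀⟩ := exists_bal hq hq2 hP hE hg0 hPr hε₃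
  set b := max b₀ 1 with hb
  have hb1 : 1 ≤ b := le_max_right _ _
  have hbr : (1 : ℝ) ≤ b := by exact_mod_cast hb1
  obtain ⟨V, M, hV, hM, hVs⟩ := hb₀ b (le_max_left _ _)
  have hgε : h₀ / 2 ≤ g - ε₃ := by linarith
  have hMh : Real.exp (h₀ / 2 * b) ≤ M := by
    refine le_trans (Real.exp_le_exp.2 ?_) hM
    exact mul_le_mul_of_nonneg_right hgε (by positivity)
  have hM1 : 1 ≤ M := by
    have h1 : (1 : ℝ) ≤ Real.exp (h₀ / 2 * b) := Real.one_le_exp (by positivity)
    exact_mod_cast h1.trans hMh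
  have hlogM : (g - ε₃) * b ≤ Real.log M := by
    rw [Real.le_log_iff_exp_le (by exact_mod_cast hM1)]
    exact hM
  obtain ⟨J₀', r₀, hJr⟩ := hgr b M V hb1 hV hMh
  -- choice of J
  set C₁ : ℝ := g * K * r₀ + Real.log ((R + 1) * E + 1 : ℕ) + Real.log 2 + Real.log q +
    ((q : ℝ) - 1) ^ K with hC₁
  set C₂ : ℝ := (8 * ((q : ℝ) - 1) ^ K + 2 * (((q : ℝ) - 1) ^ K + Real.log q)) / c * (X0 + E) with hC₂
  have hev : ∀ᶠ J : ℕ in Filter.atTop, max (max (max J₀ J₀') (max n₁ 1)) 1 ≤ J ∧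
      (C₁ ≤ ε₁ / 8 * J ∧ Real.log J ≤ ε₁ / 8 * J ∧ (E * K * r₀ : ℝ) ≤ ε₁ / 4 * J ∧
        C₂ ≤ ε₁ / 16 * J) := by
    have hT : Filter.Tendsto (fun J : ℕ => (J : ℝ)) Filter.atTop Filter.atTop :=
      tendsto_natCast_atTop_atTop
    have h8 : 0 < ε₁ / 8 := by positivity
    have h4 : 0 < ε₁ / 4 := by positivity
    have h16 : 0 < ε₁ / 16 := by positivity
    filter_upwards [Filter.eventually_ge_atTop (max (max (max J₀ J₀') (max n₁ 1)) 1),
      hT.eventually_ge_atTop (C₁ / (ε₁ / 8)), hT.eventually (Real.isLittleO_log_id_atTop.def h8),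
      hT.eventually_ge_atTop ((E * K * r₀ : ℝ) / (ε₁ / 4)),
      hT.eventually_ge_atTop (C₂ / (ε₁ / 16))] with J h1 h2 h3 h5 h6
    refine ⟨h1, ?_, ?_, ?_, ?_⟩
    · rwa [div_le_iff₀' h8] at h2
    · have h7 : (0 : ℝ) ≤ J := by positivity
      simp only [id, Real.norm_eq_abs, abs_of_nonneg h7] at h3
      exact (le_abs_self _).trans h3
    · rwa [div_le_iff₀' h4] at h5
    · rwa [div_le_iff₀' h16] at h6
  obtain ⟨J, hJm, hJ1, hJ2, hJ3, hJ4⟩ := hev.exists
  have hJJ₀ : J₀ ≤ J := le_trans (by simp) hJm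
  have hJJ₀' : J₀' ≤ J := le_trans (by simp) hJm
  have hJn : n₁ ≤ J := le_trans (by simp) hJm
  have hJone : 1 ≤ J := le_trans (by simp) hJm
  have hJpos : (0 : ℝ) < J := by exact_mod_cast hJone
  obtain ⟨T, m, r, hmix, hsum, hr, hgm⟩ := hJr J hJJ₀'
  set l : Fin K → ℕ := fun g => m g * b + r g with hl
  have hl1 : ∀ g, 1 ≤ l g := by
    intro g
    have h1 := Mix_pos (hmix g)
    show 1 ≤ m g * b + r g
    have h2 : m g ≤ m g * b := Nat.le_mul_of_pos_right _ hb1
    omega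
  choose M' hbal hM' using fun g => Mix.bal hq hq2 hP hE hb1 hV (hmix g)
  have hM'1 : ∀ g, 1 ≤ M' g := fun g => (Nat.one_le_pow _ _ hM1).trans (hM' g)
  obtain ⟨hpos, hav⟩ := hasm E J (FF q E (uz z E)) T l M' hJJ₀ hF hl1 hM'1 hbal hgm
  have hL : ∑ g, l g = R * J := hsum
  rw [hL] at hav
  -- sizes
  have hmr : (∑ g, ((m g : ℝ) * b + r g)) = R * J := by
    have h1 : ((∑ g, (m g * b + r g) : ℕ) : ℝ) = ((R * J : ℕ) : ℝ) := by rw [hsum]
    push_cast at h1
    exact h1
  have hrs : (∑ g, (r g : ℝ)) ≤ K * r₀ := by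
    calc (∑ g, (r g : ℝ)) ≤ ∑ _g : Fin K, (r₀ : ℝ) :=
          Finset.sum_le_sum fun g _ => by exact_mod_cast hr g
      _ = K * r₀ := by simp
  have hrs0 : 0 ≤ ∑ g, (r g : ℝ) := Finset.sum_nonneg fun g _ => by positivity
  have hmb : (∑ g, (m g : ℝ) * b) = R * J - ∑ g, (r g : ℝ) := by
    rw [Finset.sum_add_distrib] at hmr
    linarith
  have hsz : ∀ τ ∈ Fintype.piFinset T, |((cc K τ).sum : ℝ) - a * (R * J : ℕ)| ≤
      ε₃ * (R * J) + E * (K * r₀) := by
    intro τ hτ
    rw [Fintype.mem_piFinset] at hτ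
    have h1 : ∀ g, |((τ g).sum : ℝ) - a * (m g * b + r g : ℕ)| ≤ ε₃ * (m g * b) + E * r g :=
      fun g => Mix.size hV hE ha haE hVs (hmix g) _ (hτ g)
    have h2 : ((cc K τ).sum : ℝ) - a * (R * J : ℕ) =
        ∑ g, (((τ g).sum : ℝ) - a * (m g * b + r g : ℕ)) := by
      have h5 : (∑ g, ((m g * b + r g : ℕ) : ℝ)) = ((R * J : ℕ) : ℝ) := by
        rw [← Nat.cast_sum, hsum]
      rw [Finset.sum_sub_distrib, ← Finset.mul_sum, cc_sum, h5, Nat.cast_sum]
    rw [h2]
    refine (Finset.abs_sum_le_sum_abs _ _).trans ((Finset.sum_le_sum fun g _ => h1 g).trans ?_)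
    rw [Finset.sum_add_distrib, ← Finset.mul_sum, ← Finset.mul_sum, hmb]
    have h3 : ε₃ * (R * J - ∑ g, (r g : ℝ)) ≤ ε₃ * (R * J) :=
      mul_le_mul_of_nonneg_left (by linarith) hε₃.le
    have h4 : (E : ℝ) * ∑ g, (r g : ℝ) ≤ E * (K * r₀) :=
      mul_le_mul_of_nonneg_left hrs (by positivity)
    linarith
  obtain ⟨S, hS1, hS2, hS3, hS4⟩ := core hq hq2 hP hE hJone hz hε₂.le hc (hdev J) hl1 hM'1 hbal hL
    hpos hav hsz
  -- the fraction of atypical starts is small
  set P : ℝ := ((q : ℝ) - 1) ^ K with hPd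
  have hP0 : 0 < P := by positivity
  have hlq : 0 ≤ Real.log q := Real.log_nonneg (by linarith)
  set β : ℝ := 4 * P * Real.exp (-(c * J / 2)) + 2 / (c * J) * (P + η * J + Real.log q) with hβd
  have hβ0 : 0 ≤ β := by positivity
  have hexp : Real.exp (-(c * J / 2)) ≤ 2 / (c * J) := by
    rw [Real.exp_neg, inv_le_comm₀ (Real.exp_pos _) (by positivity), inv_div]
    have := Real.add_one_le_exp (c * J / 2)
    linarith
  have hβ : β * (X0 + E) ≤ ε₁ / 8 := by
    have h1 : β ≤ 4 * P * (2 / (c * J)) + 2 / (c * J) * (P + η * J + Real.log q) := by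
      rw [hβd]
      have := mul_le_mul_of_nonneg_left hexp (by positivity : 0 ≤ 4 * P)
      linarith
    have h2 : 4 * P * (2 / (c * J)) + 2 / (c * J) * (P + η * J + Real.log q) =
        (8 * P + 2 * (P + Real.log q)) / c / J + 2 * η / c := by
      field_simp
      ring
    rw [h2] at h1
    have h3 : C₂ / J ≤ ε₁ / 16 := by
      rw [div_le_iff₀ hJpos]
      exact hJ4
    have h4 : ((8 * P + 2 * (P + Real.log q)) / c / J + 2 * η / c) * (X0 + E) =
        C₂ / J + 2 * η / c * (X0 + E) := by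
      rw [hC₂]
      ring
    have h5 := mul_le_mul_of_nonneg_right h1 hX0'.le
    rw [h4] at h5
    linarith
  have hXX : |Gz q z E - |Real.log z| * ε₂| ≤ X0 := by
    refine (abs_sub _ _).trans ?_
    rw [abs_of_nonneg (mul_nonneg hlz hε₂.le), hX0]
    linarith
  have hE0 : (0 : ℝ) ≤ E := by positivity
  have hX00 : 0 ≤ X0 := by positivity
  have hβX : β * |Gz q z E - |Real.log z| * ε₂| ≤ ε₁ / 8 := by
    refine le_trans ?_ hβ
    exact mul_le_mul_of_nonneg_left (by linarith) hβ0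
  have hβE : β * E ≤ ε₁ / 8 := by
    refine le_trans ?_ hβ
    exact mul_le_mul_of_nonneg_left (by linarith) hβ0
  have hn : ((R * J + J : ℕ) : ℝ) = (R + 1) * J := by push_cast; ring
  have hR1 : (0 : ℝ) < R + 1 := by positivity
  refine ⟨R * J + J, ?_, S, hS1, hS2, ?_, ?_⟩
  · exact hJn.trans (Nat.le_add_left _ _)
  · -- lower bound for the growth
    refine le_trans ?_ hS3
    rw [hn]
    have h0 : (R * g + (Gz q z E - ε₁)) / (R + 1) * ((R + 1) * J) =
        (R * g + (Gz q z E - ε₁)) * J := by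
      field_simp
    rw [h0]
    -- the product of the M'
    have h1 : g * (R * J) - ε₃ * (R * J) - g * (K * r₀) ≤ Real.log (∏ g, (M' g : ℝ)) := by
      rw [Real.log_prod (fun g _ => by
        have := hM'1 g
        positivity)]
      have h2 : ∀ i : Fin K, (g - ε₃) * (m i * b) ≤ Real.log (M' i) := by
        intro i
        have h3 : Real.log ((M : ℝ) ^ m i) ≤ Real.log (M' i) := by
          apply Real.log_le_log
          · have : (0 : ℝ) < M := by exact_mod_cast hM1
            positivity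
          · exact_mod_cast hM' i
        rw [Real.log_pow] at h3
        refine le_trans ?_ h3
        have h4 := mul_le_mul_of_nonneg_left hlogM (by positivity : (0 : ℝ) ≤ m i)
        linarith
      have h3 : (g - ε₃) * ∑ i, ((m i : ℝ) * b) ≤ ∑ i, Real.log (M' i) := by
        rw [Finset.mul_sum]
        exact Finset.sum_le_sum fun i _ => h2 i
      rw [hmb] at h3
      have h4 : (g - ε₃) * ∑ g, (r g : ℝ) ≤ g * (K * r₀) := by
        calc (g - ε₃) * ∑ g, (r g : ℝ) ≤ g * ∑ g, (r g : ℝ) :=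
              mul_le_mul_of_nonneg_right (by linarith) hrs0
          _ ≤ g * (K * r₀) := mul_le_mul_of_nonneg_left hrs hg0.le
      linarith
    have h2 : Real.log ((R * J + J) * E + 1 : ℕ) ≤ Real.log ((R + 1) * E + 1 : ℕ) + Real.log J := by
      rw [← Real.log_mul (by positivity) hJpos.ne']
      apply Real.log_le_log (by positivity)
      have h3 : (R * J + J) * E + 1 ≤ ((R + 1) * E + 1) * J := by
        have h4 : ((R + 1) * E + 1) * J = (R * J + J) * E + J := by ring
        rw [h4]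
        omega
      exact_mod_cast h3
    have h3 := mul_le_mul_of_nonneg_right hβX hJpos.le
    have h7 : 0 ≤ ε₁ * J := by positivity
    have h4 := mul_le_mul_of_nonneg_right hε₃2 hJpos.le
    have h5 := mul_le_mul_of_nonneg_right hε₂2 hJpos.le
    have h6 := mul_le_mul_of_nonneg_right hη1 hJpos.le
    linarith
  · rw [hn]
    have h0 : (R * a + az z E) / (R + 1) * ((R + 1) * J) = a * (R * J : ℕ) + az z E * J := by
      push_cast
      field_simp
    have h0' : ε₁ / (R + 1) * ((R + 1) * J) = ε₁ * J := by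
      field_simp
    rw [h0, h0']
    refine hS4.trans ?_
    have h3 := mul_le_mul_of_nonneg_right hβE hJpos.le
    have h7 : 0 ≤ ε₁ * J := by positivity
    have h4 := mul_le_mul_of_nonneg_right hε₃2 hJpos.le
    have h5 := mul_le_mul_of_nonneg_right hε₂1 hJpos.le
    linarith

end Pool.Agent.H422R2.QA
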